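import Pool.Agent.H.MP_c086f7_lc.A

set_option autoImplicit false
open Pool.Agent.H.MP_c086f7_lc

namespace Pool.Agent.Results.MP_c086f7_lc.NoB

theorem result (E : Type) (hE : Cardinal.mk E ≤ Cardinal.continuum) :
    ¬ ∃ s : List (Bool × Set E) → Bool × Set E, BWins s :=
  fun ⟨s, h⟩ => noB hE s h

end Pool.Agent.Results.MP_c086f7_lc.NoB
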